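import Mathlib

/-!
# Convergents per period in orbits of `x ↦ (d x + k) / (x + d)`

For `k = 22`, `d = 14/3` (so `R = 4 d ^ 2 / (k - d ^ 2) = 392`) the orbit of `x₀ = 4`, which is not on the
two-sided orbit of `∞`, consists of the convergents `p_j / q_j` of `√22` with `j ≡ 1 mod 3`.
As `√22 = [4; 1, 2, 4, 2, 1, 8, ...]` has minimal period length `L = 6`, these are two convergents per period.
-/

set_option autoImplicit false

namespace Pool.Agent.Results.MP_f17d28_nt.TwoClassesPerPeriod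

open OnePoint

/-- The map `f(x) = (d x + k) / (x + d)` on `ℚ ∪ {∞}`, with `f(∞) = d` and `f(-d) = ∞`. -/
def f (k : ℕ) (d : ℚ) (x : OnePoint ℚ) : OnePoint ℚ :=
  x.elim (d : OnePoint ℚ) fun y => if y + d = 0 then ∞ else (((d * y + k) / (y + d) : ℚ) : OnePoint ℚ)

/-- The simple continued fraction `[c_0; c_1, c_2, ...]` of `√k`, as computed by Mathlib; its sequence
`(cf k).s` has the entries `(1, c_1), (1, c_2), ...`. -/
noncomputable def cf (k : ℕ) : GenContFract ℝ := GenContFract.of (Real.sqrt k)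

/-- The minimal period length `L` of `√k = [c_0; c_1, ..., c_L, c_1, ..., c_L, ...]`. -/
noncomputable def periodLength (k : ℕ) : ℕ :=
  sInf {L : ℕ | 0 < L ∧ ∀ n : ℕ, (cf k).s.get? (n + L) = (cf k).s.get? n}

/-- The rational number `x` is the convergent `p_j / q_j = [c_0; c_1, ..., c_{j-1}]` of `√k`, `j ≥ 1`. -/
def IsConvergent (k j : ℕ) (x : ℚ) : Prop := 1 ≤ j ∧ (x : ℝ) = (cf k).convs (j - 1)

section contfrac

lemma sqrt_sq : Real.sqrt 22 * Real.sqrt 22 = 22 := Real.mul_self_sqrt (by norm_num)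

lemma sqrt_lo : (469 / 100 : ℝ) < Real.sqrt 22 := by
  rw [Real.lt_sqrt (by norm_num)]; norm_num

lemma sqrt_hi : Real.sqrt 22 < (470 / 100 : ℝ) := by
  rw [Real.sqrt_lt' (by norm_num)]; norm_num

/-- One step of the continued fraction algorithm. -/
lemma step {v w : ℝ} {a b : ℤ} (hv : (a : ℝ) ≤ v ∧ v < a + 1) (hw : w * (v - a) = 1)
    (hb : (b : ℝ) ≤ w ∧ w < b + 1) :
    (GenContFract.of v).s.get? 0 = Option.some (GenContFract.Pair.mk 1 (b : ℝ)) ∧
      ∀ n, (GenContFract.of v).s.get? (n + 1) = (GenContFract.of w).s.get? n := by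
  have hfl : ⌊v⌋ = a := Int.floor_eq_iff.2 hv
  have hfr : Int.fract v = v - a := by rw [← hfl]; rfl
  have hne : Int.fract v ≠ 0 := by
    rw [hfr]; intro h; rw [h] at hw; norm_num at hw
  have hinv : (Int.fract v)⁻¹ = w := by
    rw [hfr]; exact (eq_inv_of_mul_eq_one_left hw).symm
  have hb' : ⌊w⌋ = b := Int.floor_eq_iff.2 hb
  refine ⟨?_, fun n => ?_⟩
  · have h := GenContFract.of_s_head hne
    rw [hinv, hb'] at h
    exact h
  · rw [GenContFract.of_s_succ, hinv]

/-- The partial quotients of `√22`. -/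
lemma quotients :
    (∀ n, (cf 22).s.get? (n + 6) = (cf 22).s.get? n) ∧
    (cf 22).s.get? 0 = Option.some (GenContFract.Pair.mk 1 (1 : ℝ)) ∧
    (cf 22).s.get? 1 = Option.some (GenContFract.Pair.mk 1 (2 : ℝ)) ∧
    (cf 22).s.get? 2 = Option.some (GenContFract.Pair.mk 1 (4 : ℝ)) ∧
    (cf 22).s.get? 3 = Option.some (GenContFract.Pair.mk 1 (2 : ℝ)) ∧
    (cf 22).s.get? 4 = Option.some (GenContFract.Pair.mk 1 (1 : ℝ)) ∧
    (cf 22).s.get? 5 = Option.some (GenContFract.Pair.mk 1 (8 : ℝ)) := by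
  have h1 := sqrt_sq
  have h2 := sqrt_lo
  have h3 := sqrt_hi
  set s := Real.sqrt 22 with hs
  have e0 : cf 22 = GenContFract.of s := by
    unfold cf; norm_num [hs]
  obtain ⟨a0, b0⟩ := step (v := s) (w := (s + 4) / 6) (a := 4) (b := 1)
    (by constructor <;> push_cast <;> linarith) (by push_cast; nlinarith)
    (by constructor <;> push_cast <;> linarith)
  obtain ⟨a1, b1⟩ := step (v := (s + 4) / 6) (w := (s + 2) / 3) (a := 1) (b := 2)
    (by constructor <;> push_cast <;> linarith) (by push_cast; nlinarith)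
    (by constructor <;> push_cast <;> linarith)
  obtain ⟨a2, b2⟩ := step (v := (s + 2) / 3) (w := (s + 4) / 2) (a := 2) (b := 4)
    (by constructor <;> push_cast <;> linarith) (by push_cast; nlinarith)
    (by constructor <;> push_cast <;> linarith)
  obtain ⟨a3, b3⟩ := step (v := (s + 4) / 2) (w := (s + 4) / 3) (a := 4) (b := 2)
    (by constructor <;> push_cast <;> linarith) (by push_cast; nlinarith)
    (by constructor <;> push_cast <;> linarith)
  obtain ⟨a4, b4⟩ := step (v := (s + 4) / 3) (w := (s + 2) / 6) (a := 2) (b := 1)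
    (by constructor <;> push_cast <;> linarith) (by push_cast; nlinarith)
    (by constructor <;> push_cast <;> linarith)
  obtain ⟨a5, b5⟩ := step (v := (s + 2) / 6) (w := s + 4) (a := 1) (b := 8)
    (by constructor <;> push_cast <;> linarith) (by push_cast; nlinarith)
    (by constructor <;> push_cast <;> linarith)
  obtain ⟨a6, b6⟩ := step (v := s + 4) (w := (s + 4) / 6) (a := 8) (b := 1)
    (by constructor <;> push_cast <;> linarith) (by push_cast; nlinarith)
    (by constructor <;> push_cast <;> linarith)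
  rw [e0]
  refine ⟨fun n => ?_, ?_, ?_, ?_, ?_, ?_, ?_⟩
  · rw [show n + 6 = (n + 5) + 1 from rfl, b0, show n + 5 = (n + 4) + 1 from rfl, b1,
      show n + 4 = (n + 3) + 1 from rfl, b2, show n + 3 = (n + 2) + 1 from rfl, b3,
      show n + 2 = (n + 1) + 1 from rfl, b4, b5]
    cases n with
    | zero => rw [a6, a0]
    | succ n => rw [b6, b0]
  · exact a0.trans (by norm_num)
  · exact (b0 0).trans (a1.trans (by norm_num))
  · exact (b0 1).trans ((b1 0).trans (a2.trans (by norm_num)))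
  · exact (b0 2).trans ((b1 1).trans ((b2 0).trans (a3.trans (by norm_num))))
  · exact (b0 3).trans ((b1 2).trans ((b2 1).trans ((b3 0).trans (a4.trans (by norm_num)))))
  · exact (b0 4).trans ((b1 3).trans ((b2 2).trans ((b3 1).trans ((b4 0).trans
      (a5.trans (by norm_num))))))

lemma periodLength_eq : periodLength 22 = 6 := by
  obtain ⟨hp, h0, h1, h2, h3, h4, h5⟩ := quotients
  unfold periodLength
  apply le_antisymm
  · exact Nat.sInf_le ⟨by norm_num, hp⟩
  · refine le_csInf ⟨6, by norm_num, hp⟩ ?_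
    rintro L ⟨hL, h⟩
    by_contra hcon
    push Not at hcon
    have e0 := h 0
    have e1 := h 1
    interval_cases L
    · rw [h0, show 0 + 1 = 1 from rfl, h1] at e0; norm_num at e0
    · rw [h0, show 0 + 2 = 2 from rfl, h2] at e0; norm_num at e0
    · rw [h0, show 0 + 3 = 3 from rfl, h3] at e0; norm_num at e0
    · rw [h1, show 1 + 4 = 5 from rfl, h5] at e1; norm_num at e1
    · rw [h0, show 0 + 5 = 5 from rfl, h5] at e0; norm_num at e0

lemma get_mul (t i : ℕ) : (cf 22).s.get? (6 * t + i) = (cf 22).s.get? i := by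
  induction t with
  | zero => simp
  | succ t ih => rw [show 6 * (t + 1) + i = (6 * t + i) + 6 by ring, quotients.1, ih]

/-- `(197 + 42 √22) ^ t = pell t + pell' t √22` -/
def pell : ℕ → ℕ × ℕ
  | 0 => (1, 0)
  | t + 1 => (197 * (pell t).1 + 924 * (pell t).2, 42 * (pell t).1 + 197 * (pell t).2)

lemma pell_pos (t : ℕ) : 1 ≤ (pell t).1 := by
  induction t with
  | zero => exact le_rfl
  | succ t ih => simp only [pell]; omega

lemma conts_all (t : ℕ) :
    (cf 22).nums (6 * t) = 4 * (pell t).1 + 22 * (pell t).2 ∧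
    (cf 22).dens (6 * t) = (pell t).1 + 4 * (pell t).2 ∧
    (cf 22).nums (6 * t + 1) = 5 * (pell t).1 + 22 * (pell t).2 ∧
    (cf 22).dens (6 * t + 1) = (pell t).1 + 5 * (pell t).2 ∧
    (cf 22).nums (6 * t + 3) = 61 * (pell t).1 + 286 * (pell t).2 ∧
    (cf 22).dens (6 * t + 3) = 13 * (pell t).1 + 61 * (pell t).2 := by
  obtain ⟨hp, h0, h1, h2, h3, h4, h5⟩ := quotients
  have main : ∀ t : ℕ,
      (cf 22).nums (6 * t) = 4 * (pell t).1 + 22 * (pell t).2 →
      (cf 22).dens (6 * t) = (pell t).1 + 4 * (pell t).2 →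
      (cf 22).nums (6 * t + 1) = 5 * (pell t).1 + 22 * (pell t).2 →
      (cf 22).dens (6 * t + 1) = (pell t).1 + 5 * (pell t).2 →
      ((cf 22).nums (6 * t + 3) = 61 * (pell t).1 + 286 * (pell t).2 ∧
      (cf 22).dens (6 * t + 3) = 13 * (pell t).1 + 61 * (pell t).2) ∧
      (cf 22).nums (6 * (t + 1)) = 4 * (pell (t + 1)).1 + 22 * (pell (t + 1)).2 ∧
      (cf 22).dens (6 * (t + 1)) = (pell (t + 1)).1 + 4 * (pell (t + 1)).2 ∧
      (cf 22).nums (6 * (t + 1) + 1) = 5 * (pell (t + 1)).1 + 22 * (pell (t + 1)).2 ∧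
      (cf 22).dens (6 * (t + 1) + 1) = (pell (t + 1)).1 + 5 * (pell (t + 1)).2 := by
    intro t n0 d0 n1 d1
    have g1 := (get_mul t 1).trans h1
    have g2 := (get_mul t 2).trans h2
    have g3 := (get_mul t 3).trans h3
    have g4 := (get_mul t 4).trans h4
    have g5 := (get_mul t 5).trans h5
    have g6 : (cf 22).s.get? (6 * t + 6) = _ := (get_mul t 6).trans ((hp 0).trans h0)
    have n2 := GenContFract.nums_recurrence g1 n0 n1
    have d2 := GenContFract.dens_recurrence g1 d0 d1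
    have n3 := GenContFract.nums_recurrence (n := 6 * t + 1) g2 n1 n2
    have d3 := GenContFract.dens_recurrence (n := 6 * t + 1) g2 d1 d2
    have n4 := GenContFract.nums_recurrence (n := 6 * t + 2) g3 n2 n3
    have d4 := GenContFract.dens_recurrence (n := 6 * t + 2) g3 d2 d3
    have n5 := GenContFract.nums_recurrence (n := 6 * t + 3) g4 n3 n4
    have d5 := GenContFract.dens_recurrence (n := 6 * t + 3) g4 d3 d4
    have n6 := GenContFract.nums_recurrence (n := 6 * t + 4) g5 n4 n5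
    have d6 := GenContFract.dens_recurrence (n := 6 * t + 4) g5 d4 d5
    have n7 := GenContFract.nums_recurrence (n := 6 * t + 5) g6 n5 n6
    have d7 := GenContFract.dens_recurrence (n := 6 * t + 5) g6 d5 d6
    refine ⟨⟨?_, ?_⟩, ?_, ?_, ?_, ?_⟩
    · rw [show 6 * t + 3 = 6 * t + 1 + 2 from rfl, n3]; ring
    · rw [show 6 * t + 3 = 6 * t + 1 + 2 from rfl, d3]; ring
    · rw [show 6 * (t + 1) = 6 * t + 4 + 2 from rfl, n6]; simp only [pell]; push_cast; ring
    · rw [show 6 * (t + 1) = 6 * t + 4 + 2 from rfl, d6]; simp only [pell]; push_cast; ring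
    · rw [show 6 * (t + 1) + 1 = 6 * t + 5 + 2 from rfl, n7]; simp only [pell]; push_cast; ring
    · rw [show 6 * (t + 1) + 1 = 6 * t + 5 + 2 from rfl, d7]; simp only [pell]; push_cast; ring
  have base : (cf 22).nums (6 * 0) = 4 * (pell 0).1 + 22 * (pell 0).2 ∧
      (cf 22).dens (6 * 0) = (pell 0).1 + 4 * (pell 0).2 ∧
      (cf 22).nums (6 * 0 + 1) = 5 * (pell 0).1 + 22 * (pell 0).2 ∧
      (cf 22).dens (6 * 0 + 1) = (pell 0).1 + 5 * (pell 0).2 := by
    have hh : (cf 22).h = 4 := by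
      unfold cf
      rw [GenContFract.of_h_eq_floor]
      have h2 := sqrt_lo
      have h3 := sqrt_hi
      have : ⌊Real.sqrt ((22 : ℕ) : ℝ)⌋ = 4 := by
        rw [Int.floor_eq_iff]; push_cast; constructor <;> linarith
      rw [this]; norm_num
    refine ⟨?_, ?_, ?_, ?_⟩
    · rw [show 6 * 0 = 0 from rfl, GenContFract.zeroth_num_eq_h, hh]; simp [pell]
    · rw [show 6 * 0 = 0 from rfl, GenContFract.zeroth_den_eq_one]; simp [pell]
    · rw [show 6 * 0 + 1 = 1 from rfl, GenContFract.first_num_eq h0, hh]; simp [pell]; norm_num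
    · rw [show 6 * 0 + 1 = 1 from rfl, GenContFract.first_den_eq h0]; simp [pell]
  have all : ∀ t : ℕ,
      (cf 22).nums (6 * t) = 4 * (pell t).1 + 22 * (pell t).2 ∧
      (cf 22).dens (6 * t) = (pell t).1 + 4 * (pell t).2 ∧
      (cf 22).nums (6 * t + 1) = 5 * (pell t).1 + 22 * (pell t).2 ∧
      (cf 22).dens (6 * t + 1) = (pell t).1 + 5 * (pell t).2 := by
    intro t
    induction t with
    | zero => exact base
    | succ t ih =>
      obtain ⟨a, b, c, d⟩ := ih
      exact (main t a b c d).2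
  obtain ⟨a, b, c, d⟩ := all t
  exact ⟨a, b, c, d, (main t a b c d).1⟩

/-- The convergent `p_{3t+1} / q_{3t+1}` of `√22`. -/
def val (t : ℕ) : ℚ :=
  if t % 2 = 0 then (4 * (pell (t / 2)).1 + 22 * (pell (t / 2)).2) / ((pell (t / 2)).1 + 4 * (pell (t / 2)).2)
  else (61 * (pell (t / 2)).1 + 286 * (pell (t / 2)).2) / (13 * (pell (t / 2)).1 + 61 * (pell (t / 2)).2)

lemma val_conv (t : ℕ) : IsConvergent 22 (3 * t + 1) (val t) := by
  refine ⟨by omega, ?_⟩
  obtain ⟨a, b, -, -, c, d⟩ := conts_all (t / 2)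
  rw [show 3 * t + 1 - 1 = 3 * t from rfl, GenContFract.conv_eq_num_div_den]
  unfold val
  split_ifs with h
  · rw [show 3 * t = 6 * (t / 2) by omega, a, b]; push_cast; rfl
  · rw [show 3 * t = 6 * (t / 2) + 3 by omega, c, d]; push_cast; rfl

end contfrac

section orbit

lemma f_coe {y : ℚ} (h : 0 < y) :
    f 22 (14 / 3) (y : OnePoint ℚ) = (((14 * y + 66) / (3 * y + 14) : ℚ) : OnePoint ℚ) := by
  unfold f
  rw [OnePoint.elim_some, if_neg (by positivity)]
  congr 1
  have h1 : y + 14 / 3 ≠ 0 := by positivity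
  have h2 : 3 * y + 14 ≠ 0 := by positivity
  rw [div_eq_div_iff h1 h2]; push_cast; ring

lemma val_pos (t : ℕ) : 0 < val t := by
  have h := pell_pos (t / 2)
  have h' : (1 : ℚ) ≤ (pell (t / 2)).1 := by exact_mod_cast h
  unfold val
  split_ifs <;> positivity

lemma val_succ (t : ℕ) : (14 * val t + 66) / (3 * val t + 14) = val (t + 1) := by
  have h := pell_pos (t / 2)
  have h' : (1 : ℚ) ≤ (pell (t / 2)).1 := by exact_mod_cast h
  have hp := val_pos t
  have h2 : 3 * val t + 14 ≠ 0 := by positivity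
  rcases Nat.mod_two_eq_zero_or_one t with ht | ht
  · have e1 : (t + 1) / 2 = t / 2 := by omega
    have e2 : (t + 1) % 2 ≠ 0 := by omega
    unfold val
    rw [if_pos ht, if_neg e2, e1]
    set a : ℚ := ((pell (t / 2)).1 : ℚ)
    set b : ℚ := ((pell (t / 2)).2 : ℚ) with hb
    have hb0 : 0 ≤ b := by rw [hb]; positivity
    have k1 : a + 4 * b ≠ 0 := by positivity
    have k2 : 13 * a + 61 * b ≠ 0 := by positivity
    have k3 : 3 * ((4 * a + 22 * b) / (a + 4 * b)) + 14 ≠ 0 := by positivity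
    field_simp
    ring
  · have e1 : (t + 1) / 2 = t / 2 + 1 := by omega
    have e2 : (t + 1) % 2 = 0 := by omega
    have ht' : ¬ t % 2 = 0 := by omega
    unfold val
    rw [if_neg ht', if_pos e2, e1]
    simp only [pell]
    push_cast
    set a : ℚ := ((pell (t / 2)).1 : ℚ)
    set b : ℚ := ((pell (t / 2)).2 : ℚ) with hb
    have hb0 : 0 ≤ b := by rw [hb]; positivity
    have k2 : 13 * a + 61 * b ≠ 0 := by positivity
    have k3 : 3 * ((61 * a + 286 * b) / (13 * a + 61 * b)) + 14 ≠ 0 := by positivity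
    have k4 : 197 * a + 924 * b + 4 * (42 * a + 197 * b) ≠ 0 := by positivity
    field_simp
    ring

lemma orbit_eq (t : ℕ) : (f 22 (14 / 3))^[t] ((4 : ℚ) : OnePoint ℚ) = (val t : OnePoint ℚ) := by
  induction t with
  | zero => simp [val, pell]
  | succ t ih => rw [Function.iterate_succ_apply', ih, f_coe (val_pos t), val_succ]

/-- The inverse of `f`. -/
def g (x : OnePoint ℚ) : OnePoint ℚ :=
  x.elim ((-14 / 3 : ℚ) : OnePoint ℚ) fun y => if y = 14 / 3 then ∞ else
    (((14 * y - 66) / (14 - 3 * y) : ℚ) : OnePoint ℚ)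

lemma gf (x : OnePoint ℚ) : g (f 22 (14 / 3) x) = x := by
  induction x with
  | infty => simp [f, g]
  | coe y =>
    unfold f
    rw [OnePoint.elim_some]
    split_ifs with h
    · unfold g
      rw [OnePoint.elim_infty]
      congr 1; linarith
    · unfold g
      rw [OnePoint.elim_some]
      have h1 : (14 / 3 * y + ((22 : ℕ) : ℚ)) / (y + 14 / 3) ≠ 14 / 3 := by
        intro h2
        rw [div_eq_iff h] at h2
        push_cast at h2
        linarith
      rw [if_neg h1]
      congr 1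
      have h3 : 14 - 3 * ((14 / 3 * y + ((22 : ℕ) : ℚ)) / (y + 14 / 3)) ≠ 0 := by
        intro h4; apply h1; linarith
      rw [div_eq_iff h3]
      have h5 : (14 / 3 * y + ((22 : ℕ) : ℚ)) / (y + 14 / 3) * (y + 14 / 3) = 14 / 3 * y + 22 := by
        rw [div_mul_cancel₀ _ h]; norm_num
      set z : ℚ := (14 / 3 * y + ((22 : ℕ) : ℚ)) / (y + 14 / 3)
      linarith

lemma fg (x : OnePoint ℚ) : f 22 (14 / 3) (g x) = x := by
  induction x with
  | infty => simp [f, g]; norm_num
  | coe y =>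
    unfold g
    rw [OnePoint.elim_some]
    split_ifs with h
    · unfold f
      rw [OnePoint.elim_infty, h]
    · unfold f
      rw [OnePoint.elim_some]
      have h0 : 14 - 3 * y ≠ 0 := by intro h1; apply h; linarith
      have h5 : (14 * y - 66) / (14 - 3 * y) * (14 - 3 * y) = 14 * y - 66 := div_mul_cancel₀ _ h0
      set z : ℚ := (14 * y - 66) / (14 - 3 * y)
      have h1 : z + 14 / 3 ≠ 0 := by
        intro h2
        have h3 : z = - (14 / 3) := by linarith
        rw [h3] at h5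
        linarith
      rw [if_neg h1]
      congr 1
      rw [div_eq_iff h1]
      push_cast
      linarith

/-- `f` as a permutation of `ℚ ∪ {∞}`. -/
def F : Equiv.Perm (OnePoint ℚ) := ⟨f 22 (14 / 3), g, gf, fg⟩

lemma sq_ne (y : ℚ) : y ^ 2 - 22 ≠ 0 := by
  intro h
  have h1 : IsSquare (22 : ℚ) := ⟨y, by linarith [sq y]⟩
  rw [Rat.isSquare_iff] at h1
  have h2 : IsSquare (22 : ℤ) := by simpa using h1.1
  obtain ⟨r, hr⟩ := h2
  have : r.natAbs * r.natAbs = 22 := by
    have := congrArg Int.natAbs hr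
    rw [Int.natAbs_mul] at this
    exact this.symm
  have h3 : r.natAbs < 5 := by nlinarith
  interval_cases r.natAbs <;> omega

/-- The invariant: the `3`-adic valuation of `y ^ 2 - 22` is even. -/
def Inv (x : OnePoint ℚ) : Prop := x.elim True fun y => Even (padicValRat 3 (y ^ 2 - 22))

lemma inv_f (x : OnePoint ℚ) : Inv (f 22 (14 / 3) x) ↔ Inv x := by
  have h3 : Fact (Nat.Prime 3) := ⟨Nat.prime_three⟩
  have hval : padicValRat 3 ((-2 : ℚ) / 9) = -2 := by
    rw [padicValRat.div (by norm_num) (by norm_num), padicValRat.neg]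
    have e1 : padicValRat 3 (2 : ℚ) = 0 := by
      have : (2 : ℚ) = ((2 : ℕ) : ℚ) := by norm_num
      rw [this, padicValRat.of_nat, padicValNat.eq_zero_of_not_dvd (by norm_num)]; rfl
    have e2 : padicValRat 3 (9 : ℚ) = 2 := by
      have : (9 : ℚ) = ((3 : ℕ) : ℚ) ^ 2 := by norm_num
      rw [this, padicValRat.pow, padicValRat.self (by norm_num)]; norm_num
    rw [e1, e2]; norm_num
  have heven : Even (-2 : ℤ) := ⟨-1, by norm_num⟩
  induction x with
  | infty =>
    have : Inv (f 22 (14 / 3) ∞) := by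
      unfold f Inv
      rw [OnePoint.elim_infty, OnePoint.elim_some]
      rw [show ((14 : ℚ) / 3) ^ 2 - 22 = -2 / 9 by norm_num, hval]
      exact heven
    exact ⟨fun _ => trivial, fun _ => this⟩
  | coe y =>
    unfold f
    rw [OnePoint.elim_some]
    split_ifs with h
    · have : Inv ((y : ℚ) : OnePoint ℚ) := by
        unfold Inv
        rw [OnePoint.elim_some]
        have hy : y = - (14 / 3) := by linarith
        rw [hy, show (-((14 : ℚ) / 3)) ^ 2 - 22 = -2 / 9 by norm_num, hval]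
        exact heven
      exact ⟨fun _ => this, fun _ => trivial⟩
    · unfold Inv
      rw [OnePoint.elim_some, OnePoint.elim_some]
      have hs := sq_ne y
      have h4 : 3 * y + 14 ≠ 0 := by intro h5; apply h; linarith
      have key : ((14 / 3 * y + ((22 : ℕ) : ℚ)) / (y + 14 / 3)) ^ 2 - 22 =
          (-2) * (y ^ 2 - 22) / (3 * y + 14) ^ 2 := by
        rw [div_pow, div_sub' (pow_ne_zero 2 h), div_eq_div_iff (pow_ne_zero 2 h) (pow_ne_zero 2 h4)]
        push_cast
        ring
      rw [key, padicValRat.div (mul_ne_zero (by norm_num) hs) (pow_ne_zero 2 h4),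
        padicValRat.mul (by norm_num) hs, padicValRat.pow, padicValRat.neg]
      have e1 : padicValRat 3 (2 : ℚ) = 0 := by
        have : (2 : ℚ) = ((2 : ℕ) : ℚ) := by norm_num
        rw [this, padicValRat.of_nat, padicValNat.eq_zero_of_not_dvd (by norm_num)]; rfl
      rw [e1, zero_add, Int.even_sub]
      constructor
      · intro h5; exact h5.2 ⟨_, by push_cast; ring⟩
      · intro h5; exact iff_of_true h5 ⟨_, by push_cast; ring⟩

lemma inv_zpow (n : ℤ) : Inv ((F ^ n) ∞) := by
  have hF : ∀ x, Inv (F x) ↔ Inv x := inv_f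
  induction n with
  | zero => trivial
  | succ n ih => rw [add_comm, zpow_add, zpow_one, Equiv.Perm.mul_apply]; exact (hF _).2 ih
  | pred n ih =>
    have h : F ((F ^ (-(n : ℤ) - 1)) ∞) = (F ^ (-(n : ℤ))) ∞ := by
      rw [← Equiv.Perm.mul_apply, ← zpow_one_add]
      congr 2; ring
    exact (hF _).1 (by rw [h]; exact ih)

lemma not_inv : ¬ Inv ((4 : ℚ) : OnePoint ℚ) := by
  have h3 : Fact (Nat.Prime 3) := ⟨Nat.prime_three⟩
  unfold Inv
  rw [OnePoint.elim_some, show (4 : ℚ) ^ 2 - 22 = -((3 : ℕ) * (2 : ℕ)) by norm_num, padicValRat.neg,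
    padicValRat.mul (by norm_num) (by norm_num), padicValRat.self (by norm_num), padicValRat.of_nat,
    padicValNat.eq_zero_of_not_dvd (by norm_num)]
  decide

end orbit

/-- **Q1, affirmative answer.** There are a nonsquare `k` and a rational `d > 0` with
`R = 4 d ^ 2 / (k - d ^ 2) ∈ ℤ` and a rational `x₀` which is not of the form `f ^ n (∞)`, `n ∈ ℤ`, such that the
orbit `{f ^ n (x₀) : n ≥ 0}` contains convergents `p_i / q_i` and `p_j / q_j` of `√k` with `i ≢ j` modulo the
minimal period length `L`. Moreover the example (`k = 22`, `d = 14 / 3`, `R = 392`, `x₀ = 4`) has `L = 6` and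
`f ^ t (x₀) = p_{3t+1} / q_{3t+1}` for every `t ≥ 0`, so that the orbit runs through two convergents per
period, those with indices `≡ 1` and `≡ 4 mod 6`. -/
theorem result :
    ∃ (k : ℕ) (d x₀ : ℚ), 0 < k ∧ ¬ IsSquare k ∧ 0 < d ∧
      (∃ R : ℤ, (R : ℚ) = 4 * d ^ 2 / (k - d ^ 2)) ∧
      (∃ F : Equiv.Perm (OnePoint ℚ), (∀ x, F x = f k d x) ∧ ∀ n : ℤ, (F ^ n) ∞ ≠ (x₀ : OnePoint ℚ)) ∧
      (∃ (m n i j : ℕ) (x y : ℚ), (f k d)^[m] (x₀ : OnePoint ℚ) = (x : OnePoint ℚ) ∧ IsConvergent k i x ∧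
        (f k d)^[n] (x₀ : OnePoint ℚ) = (y : OnePoint ℚ) ∧ IsConvergent k j y ∧
        ¬ i ≡ j [MOD periodLength k]) ∧
      periodLength k = 6 ∧
      (∀ t : ℕ, ∃ x : ℚ, (f k d)^[t] (x₀ : OnePoint ℚ) = (x : OnePoint ℚ) ∧ IsConvergent k (3 * t + 1) x) := by
  refine ⟨22, 14 / 3, 4, by norm_num, ?_, by norm_num, ⟨392, by norm_num⟩,
    ⟨F, fun x => rfl, fun n h => ?_⟩, ⟨0, 1, 1, 4, val 0, val 1, orbit_eq 0, val_conv 0, orbit_eq 1,
      val_conv 1, ?_⟩, periodLength_eq, fun t => ⟨val t, orbit_eq t, val_conv t⟩⟩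
  · rintro ⟨r, hr⟩
    have h3 : r < 5 := by nlinarith
    interval_cases r <;> omega
  · exact not_inv (h ▸ inv_zpow n)
  · rw [periodLength_eq]; decide

end Pool.Agent.Results.MP_f17d28_nt.TwoClassesPerPeriod
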